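import Pool.Agent.Y934.BEF.Stm

set_option autoImplicit false

/-!
# BEF-CONF: the explicit exponents
-/

namespace Pool.Agent.Y761.BEF

open Pool.Agent.Y934.BEF

theorem bnd {x s : ℝ} (hs : 0 ≤ s) (h : x ≤ -s ∨ s ≤ x) : s ^ 2 ≤ x ^ 2 := by
  rcases h with h | h <;> nlinarith

/-- the real period -/
def Q (b : ℕ) : ℝ := 2 * (b : ℝ) ^ 2 + 2 * b + 1

theorem Q_eq (b : ℕ) : ((qq b : ℕ) : ℝ) = Q b := by
  unfold qq Q
  push_cast
  ring

theorem Q_nonneg (b : ℕ) : 0 ≤ Q b := by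
  unfold Q
  positivity

theorem up (b : ℕ) {m m0 : ℤ} (h : m0 ≤ m) : Q b * m0 ≤ Q b * m :=
  mul_le_mul_of_nonneg_left (by exact_mod_cast h) (Q_nonneg b)

theorem qq_int (b : ℕ) : ((qq b : ℕ) : ℤ) = 2 * (b : ℤ) ^ 2 + 2 * b + 1 := by
  unfold qq
  push_cast
  ring

/-- the classes of the points -/
theorem cls (b : ℕ) (hb : 1 ≤ b) {l : ℤ} (hl : l ∈ SS b) : ∃ m : ℤ,
    (l = qq b * m ∧ (l : ℝ) = Q b * m ∧ kap b l = 0) ∨
    (l = qq b * m + (b : ℤ) ^ 2 ∧ (l : ℝ) = Q b * m + (b : ℝ) ^ 2 ∧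
      kap b l = (b : ℝ) ^ 4 - 1 / 2) ∨
    (l = qq b * m + ((b : ℤ) ^ 2 + 2 * b) ∧ (l : ℝ) = Q b * m + ((b : ℝ) ^ 2 + 2 * b) ∧
      kap b l = (b : ℝ) ^ 4 - 1 / 2) := by
  have hb' : (1 : ℤ) ≤ b := by exact_mod_cast hb
  have hd := Int.mul_ediv_add_emod l (qq b)
  refine ⟨l / qq b, ?_⟩
  rcases hl with h | h | h
  · left
    rw [h, add_zero] at hd
    refine ⟨hd.symm, ?_, ?_⟩
    · rw [← Q_eq]
      exact_mod_cast hd.symm
    · unfold kap
      rw [if_pos h]
  · right; left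
    rw [h] at hd
    refine ⟨hd.symm, ?_, ?_⟩
    · rw [← Q_eq]
      exact_mod_cast hd.symm
    · unfold kap
      rw [if_neg]
      rw [h]
      positivity
  · right; right
    rw [h] at hd
    refine ⟨hd.symm, ?_, ?_⟩
    · rw [← Q_eq]
      exact_mod_cast hd.symm
    · unfold kap
      rw [if_neg]
      rw [h]
      positivity

theorem mod_a (b : ℕ) (hb : 1 ≤ b) : ((b : ℤ) ^ 2) % (qq b : ℤ) = (b : ℤ) ^ 2 := by
  have hb' : (1 : ℤ) ≤ b := by exact_mod_cast hb
  rw [qq_int]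
  exact Int.emod_eq_of_lt (by positivity) (by nlinarith)

theorem mod_b (b : ℕ) (hb : 1 ≤ b) :
    ((b : ℤ) ^ 2 + 2 * b) % (qq b : ℤ) = (b : ℤ) ^ 2 + 2 * b := by
  have hb' : (1 : ℤ) ≤ b := by exact_mod_cast hb
  rw [qq_int]
  exact Int.emod_eq_of_lt (by positivity) (by nlinarith)

theorem k0 (b : ℕ) : kap b 0 = 0 := by
  unfold kap
  rw [if_pos (Int.zero_emod _)]

theorem kq (b : ℕ) : kap b (qq b) = 0 := by
  unfold kap
  rw [if_pos (Int.emod_self)]

theorem ka (b : ℕ) (hb : 1 ≤ b) : kap b ((b : ℤ) ^ 2) = (b : ℝ) ^ 4 - 1 / 2 := by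
  unfold kap
  rw [if_neg]
  rw [mod_a b hb]
  positivity

theorem kb (b : ℕ) (hb : 1 ≤ b) : kap b ((b : ℤ) ^ 2 + 2 * b) = (b : ℝ) ^ 4 - 1 / 2 := by
  unfold kap
  rw [if_neg]
  rw [mod_b b hb]
  positivity

theorem s0 (b : ℕ) : (0 : ℤ) ∈ SS b := Or.inl (Int.zero_emod _)
theorem sq (b : ℕ) : ((qq b : ℕ) : ℤ) ∈ SS b := Or.inl (Int.emod_self)
theorem sa (b : ℕ) (hb : 1 ≤ b) : (b : ℤ) ^ 2 ∈ SS b := Or.inr (Or.inl (mod_a b hb))
theorem sb (b : ℕ) (hb : 1 ≤ b) : (b : ℤ) ^ 2 + 2 * b ∈ SS b := Or.inr (Or.inr (mod_b b hb))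

/-- `m` is far from `m0` -/
theorem ne_cases {m m0 : ℤ} (h : m ≠ m0) : m ≤ m0 - 1 ∨ m0 + 1 ≤ m := by omega

/-- the general comparison: the three classes -/
theorem sec_of (b : ℕ) (hb : 1 ≤ b) (y E : ℝ) (k j : ℤ)
    (h1 : ∀ m : ℤ, (qq b : ℤ) * m ≠ k → (qq b : ℤ) * m ≠ j → E < (Q b * m - y) ^ 2)
    (h2 : ∀ m : ℤ, (qq b : ℤ) * m + (b : ℤ) ^ 2 ≠ k → (qq b : ℤ) * m + (b : ℤ) ^ 2 ≠ j →
      E < (b : ℝ) ^ 4 - 1 / 2 + (Q b * m + (b : ℝ) ^ 2 - y) ^ 2)
    (h3 : ∀ m : ℤ, (qq b : ℤ) * m + ((b : ℤ) ^ 2 + 2 * b) ≠ k →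
      (qq b : ℤ) * m + ((b : ℤ) ^ 2 + 2 * b) ≠ j →
      E < (b : ℝ) ^ 4 - 1 / 2 + (Q b * m + ((b : ℝ) ^ 2 + 2 * b) - y) ^ 2) :
    ∀ l ∈ SS b, l ≠ k → l ≠ j → E < kap b l + ((l : ℝ) - y) ^ 2 := by
  intro l hl hk hj
  obtain ⟨m, ⟨e, e', hkap⟩ | ⟨e, e', hkap⟩ | ⟨e, e', hkap⟩⟩ := cls b hb hl
  · rw [hkap, zero_add, e']
    exact h1 m (by rw [← e]; exact hk) (by rw [← e]; exact hj)
  · rw [hkap, e']
    exact h2 m (by rw [← e]; exact hk) (by rw [← e]; exact hj)
  · rw [hkap, e']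
    exact h3 m (by rw [← e]; exact hk) (by rw [← e]; exact hj)

/-- to the left -/
theorem left (b : ℕ) {m m0 : ℤ} (h : m ≤ m0) {r y s E κ : ℝ} (hs : 0 ≤ s)
    (h1 : Q b * m0 + r - y ≤ -s) (h2 : E < κ + s ^ 2) : E < κ + (Q b * m + r - y) ^ 2 := by
  have h3 := up b h
  have h4 := bnd (x := Q b * m + r - y) hs (Or.inl (by linarith))
  linarith

/-- to the right -/
theorem right (b : ℕ) {m m0 : ℤ} (h : m0 ≤ m) {r y s E κ : ℝ} (hs : 0 ≤ s)
    (h1 : s ≤ Q b * m0 + r - y) (h2 : E < κ + s ^ 2) : E < κ + (Q b * m + r - y) ^ 2 := by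
  have h3 := up b h
  have h4 := bnd (x := Q b * m + r - y) hs (Or.inr (by linarith))
  linarith

theorem left0 (b : ℕ) {m m0 : ℤ} (h : m ≤ m0) {y s E : ℝ} (hs : 0 ≤ s)
    (h1 : Q b * m0 - y ≤ -s) (h2 : E < s ^ 2) : E < (Q b * m - y) ^ 2 := by
  have := left b h (r := 0) (y := y) (κ := 0) hs (by linarith) (by linarith)
  simpa using this

theorem right0 (b : ℕ) {m m0 : ℤ} (h : m0 ≤ m) {y s E : ℝ} (hs : 0 ≤ s)
    (h1 : s ≤ Q b * m0 - y) (h2 : E < s ^ 2) : E < (Q b * m - y) ^ 2 := by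
  have := right b h (r := 0) (y := y) (κ := 0) hs (by linarith) (by linarith)
  simpa using this

theorem sec1 (b : ℕ) (hb : 1 ≤ b) : Sec (SS b) (kap b) 0 0 ((b : ℤ) ^ 2) := by
  have hB : (1 : ℝ) ≤ b := by exact_mod_cast hb
  refine ⟨s0 b, sa b hb, ?_⟩
  rw [ka b hb]
  refine sec_of b hb 0 _ _ _ (fun m h _ => ?_) (fun m _ h => ?_) (fun m _ _ => ?_)
  · have hm : m ≠ 0 := fun hm => h (by rw [hm, mul_zero])
    push_cast
    rcases ne_cases hm with h | h
    · refine left0 b h (s := Q b) (Q_nonneg b) (by push_cast; linarith) ?_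
      unfold Q
      nlinarith [pow_pos (show (0 : ℝ) < b by linarith) 3, pow_pos (show (0 : ℝ) < b by linarith) 4]
    · refine right0 b h (s := Q b) (Q_nonneg b) (by push_cast; linarith) ?_
      unfold Q
      nlinarith [pow_pos (show (0 : ℝ) < b by linarith) 3, pow_pos (show (0 : ℝ) < b by linarith) 4]
  · have hm : m ≠ 0 := fun hm => h (by rw [hm, mul_zero, zero_add])
    push_cast
    rcases ne_cases hm with h | h
    · refine left b h (s := (b : ℝ) ^ 2 + 2 * b + 1) (by positivity)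
        (by push_cast; unfold Q; linarith) ?_
      nlinarith [pow_pos (show (0 : ℝ) < b by linarith) 3]
    · refine right b h (s := (b : ℝ) ^ 2 + 2 * b + 1) (by positivity)
        (by push_cast; unfold Q; nlinarith) ?_
      nlinarith [pow_pos (show (0 : ℝ) < b by linarith) 3]
  · push_cast
    rcases le_or_gt 0 m with h | h
    · refine right b h (s := (b : ℝ) ^ 2 + 2 * b) (by positivity)
        (by push_cast; linarith) ?_
      nlinarith [pow_pos (show (0 : ℝ) < b by linarith) 3]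
    · refine left b (show m ≤ -1 by omega) (s := (b : ℝ) ^ 2 + 1) (by positivity)
        (by push_cast; unfold Q; linarith) ?_
      nlinarith [pow_pos (show (0 : ℝ) < b by linarith) 3]

theorem sec2 (b : ℕ) (hb : 1 ≤ b) : Sec (SS b) (kap b) ((b : ℝ) ^ 2) ((b : ℤ) ^ 2) 0 := by
  have hB : (1 : ℝ) ≤ b := by exact_mod_cast hb
  refine ⟨sa b hb, s0 b, ?_⟩
  rw [k0 b]
  refine sec_of b hb _ _ _ _ (fun m _ h => ?_) (fun m h _ => ?_) (fun m _ _ => ?_)
  · have hm : m ≠ 0 := fun hm => h (by rw [hm, mul_zero])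
    push_cast
    rcases ne_cases hm with h | h
    · refine left0 b h (s := Q b) (Q_nonneg b) (by push_cast; nlinarith) ?_
      unfold Q
      nlinarith [pow_pos (show (0 : ℝ) < b by linarith) 3, pow_pos (show (0 : ℝ) < b by linarith) 4]
    · refine right0 b h (s := (b : ℝ) ^ 2 + 2 * b + 1) (by positivity)
        (by push_cast; unfold Q; linarith) ?_
      nlinarith [pow_pos (show (0 : ℝ) < b by linarith) 3, pow_pos (show (0 : ℝ) < b by linarith) 4]
  · have hm : m ≠ 0 := fun hm => h (by rw [hm, mul_zero, zero_add])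
    push_cast
    rcases ne_cases hm with h | h
    · refine left b h (s := Q b) (Q_nonneg b)
        (by push_cast; linarith) ?_
      unfold Q
      nlinarith [pow_pos (show (0 : ℝ) < b by linarith) 3, pow_pos (show (0 : ℝ) < b by linarith) 4]
    · refine right b h (s := Q b) (Q_nonneg b)
        (by push_cast; linarith) ?_
      unfold Q
      nlinarith [pow_pos (show (0 : ℝ) < b by linarith) 3, pow_pos (show (0 : ℝ) < b by linarith) 4]
  · push_cast
    rcases le_or_gt 0 m with h | h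
    · refine right b h (s := 2 * (b : ℝ)) (by positivity)
        (by push_cast; linarith) ?_
      nlinarith [pow_pos (show (0 : ℝ) < b by linarith) 3]
    · refine left b (show m ≤ -1 by omega) (s := 2 * (b : ℝ) ^ 2 + 1) (by positivity)
        (by push_cast; unfold Q; linarith) ?_
      nlinarith [pow_pos (show (0 : ℝ) < b by linarith) 3, pow_pos (show (0 : ℝ) < b by linarith) 4]

theorem sec3 (b : ℕ) (hb : 1 ≤ b) :
    Sec (SS b) (kap b) ((b : ℝ) ^ 2 + 2 * b) ((b : ℤ) ^ 2 + 2 * b) (qq b) := by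
  have hB : (1 : ℝ) ≤ b := by exact_mod_cast hb
  refine ⟨sb b hb, sq b, ?_⟩
  rw [kq b]
  have e : (((qq b : ℕ) : ℤ) : ℝ) = Q b := by
    rw [← Q_eq]
    push_cast
    rfl
  rw [e]
  refine sec_of b hb _ _ _ _ (fun m _ h => ?_) (fun m _ _ => ?_) (fun m h _ => ?_)
  · have hm : m ≠ 1 := fun hm => h (by rw [hm, mul_one])
    rcases ne_cases hm with h | h
    · refine left0 b (show m ≤ 0 by omega) (s := (b : ℝ) ^ 2 + 2 * b) (by positivity)
        (by push_cast; linarith) ?_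
      unfold Q
      nlinarith [pow_pos (show (0 : ℝ) < b by linarith) 3, pow_pos (show (0 : ℝ) < b by linarith) 4]
    · refine right0 b (show 2 ≤ m by omega) (s := 3 * (b : ℝ) ^ 2 + 2 * b + 2) (by positivity)
        (by push_cast; unfold Q; linarith) ?_
      unfold Q
      nlinarith [pow_pos (show (0 : ℝ) < b by linarith) 3, pow_pos (show (0 : ℝ) < b by linarith) 4]
  · rcases le_or_gt 1 m with h | h
    · refine right b h (s := 2 * (b : ℝ) ^ 2 + 1) (by positivity)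
        (by push_cast; unfold Q; linarith) ?_
      unfold Q
      nlinarith [pow_pos (show (0 : ℝ) < b by linarith) 3, pow_pos (show (0 : ℝ) < b by linarith) 4]
    · refine left b (show m ≤ 0 by omega) (s := 2 * (b : ℝ)) (by positivity)
        (by push_cast; linarith) ?_
      unfold Q
      nlinarith [pow_pos (show (0 : ℝ) < b by linarith) 3, pow_pos (show (0 : ℝ) < b by linarith) 4]
  · have hm : m ≠ 0 := fun hm => h (by rw [hm, mul_zero, zero_add])
    rcases ne_cases hm with h | h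
    · refine left b h (s := Q b) (Q_nonneg b)
        (by push_cast; linarith) ?_
      unfold Q
      nlinarith [pow_pos (show (0 : ℝ) < b by linarith) 3, pow_pos (show (0 : ℝ) < b by linarith) 4]
    · refine right b h (s := Q b) (Q_nonneg b)
        (by push_cast; linarith) ?_
      unfold Q
      nlinarith [pow_pos (show (0 : ℝ) < b by linarith) 3, pow_pos (show (0 : ℝ) < b by linarith) 4]

/-- the transition between `0` and `b²` -/
theorem tr1 (b : ℕ) (hb : 1 ≤ b) : ∃ y : ℝ, Trans (SS b) (kap b) y 0 ((b : ℤ) ^ 2) := by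
  have hB : (1 : ℝ) ≤ b := by exact_mod_cast hb
  have hB2 : (1 : ℝ) ≤ (b : ℝ) ^ 2 := by nlinarith
  obtain ⟨y, hy⟩ : ∃ y : ℝ, y * (2 * (b : ℝ) ^ 2) = 2 * (b : ℝ) ^ 4 - 1 / 2 :=
    ⟨(2 * (b : ℝ) ^ 4 - 1 / 2) / (2 * (b : ℝ) ^ 2), div_mul_cancel₀ _ (by positivity)⟩
  have hy1 : y < (b : ℝ) ^ 2 := by nlinarith
  have hy0 : 0 < y := by nlinarith [pow_le_pow_left₀ (by norm_num : (0 : ℝ) ≤ 1) hB 4]
  have e1 : kap b 0 + (((0 : ℤ) : ℝ) - y) ^ 2 =
      kap b ((b : ℤ) ^ 2) + ((((b : ℤ) ^ 2 : ℤ) : ℝ) - y) ^ 2 := by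
    rw [k0, ka b hb]
    push_cast
    nlinarith
  refine ⟨y, ⟨s0 b, sa b hb, ?_⟩, by exact_mod_cast hy0, by push_cast; exact hy1, e1⟩
  rw [ka b hb]
  have e2 : (b : ℝ) ^ 4 - 1 / 2 + ((((b : ℤ) ^ 2 : ℤ) : ℝ) - y) ^ 2 = y ^ 2 := by
    push_cast
    nlinarith
  refine sec_of b hb _ _ _ _ (fun m h _ => ?_) (fun m _ h => ?_) (fun m _ _ => ?_)
  · rw [e2]
    have hm : m ≠ 0 := fun hm => h (by rw [hm, mul_zero])
    rcases ne_cases hm with h | h
    · refine left0 b h (s := Q b + y) (by unfold Q; positivity) (by push_cast; linarith) ?_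
      unfold Q
      nlinarith
    · refine right0 b h (s := Q b - y) (by unfold Q; nlinarith) (by push_cast; linarith) ?_
      unfold Q
      nlinarith
  · have hm : m ≠ 0 := fun hm => h (by rw [hm, mul_zero, zero_add])
    push_cast
    rcases ne_cases hm with h | h
    · refine left b h (s := (b : ℝ) ^ 2 + 2 * b + 1 + y) (by positivity)
        (by push_cast; unfold Q; linarith) ?_
      nlinarith
    · refine right b h (s := (b : ℝ) ^ 2 + 1 - y) (by linarith)
        (by push_cast; unfold Q; nlinarith) ?_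
      nlinarith
  · push_cast
    rcases le_or_gt 0 m with h | h
    · refine right b h (s := (b : ℝ) ^ 2 + 2 * b - y) (by linarith)
        (by push_cast; linarith) ?_
      nlinarith
    · refine left b (show m ≤ -1 by omega) (s := (b : ℝ) ^ 2 + 1 + y) (by positivity)
        (by push_cast; unfold Q; linarith) ?_
      nlinarith

/-- the transition between `b²` and `b² + 2b` -/
theorem tr2 (b : ℕ) (hb : 1 ≤ b) :
    ∃ y : ℝ, Trans (SS b) (kap b) y ((b : ℤ) ^ 2) ((b : ℤ) ^ 2 + 2 * b) := by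
  have hB : (1 : ℝ) ≤ b := by exact_mod_cast hb
  refine ⟨(b : ℝ) ^ 2 + b, ⟨sa b hb, sb b hb, ?_⟩, by push_cast; linarith,
    by push_cast; linarith, ?_⟩
  · rw [kb b hb]
    refine sec_of b hb _ _ _ _ (fun m _ _ => ?_) (fun m h _ => ?_) (fun m _ h => ?_)
    · push_cast
      rcases le_or_gt 1 m with h | h
      · refine right0 b h (s := (b : ℝ) ^ 2 + b + 1) (by positivity)
          (by push_cast; unfold Q; linarith) ?_
        nlinarith [pow_pos (show (0 : ℝ) < b by linarith) 3]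
      · refine left0 b (show m ≤ 0 by omega) (s := (b : ℝ) ^ 2 + b) (by positivity)
          (by push_cast; linarith) ?_
        nlinarith [pow_pos (show (0 : ℝ) < b by linarith) 3]
    · have hm : m ≠ 0 := fun hm => h (by rw [hm, mul_zero, zero_add])
      push_cast
      rcases ne_cases hm with h | h
      · refine left b h (s := Q b + b) (by unfold Q; positivity)
          (by push_cast; linarith) ?_
        unfold Q
        nlinarith [pow_pos (show (0 : ℝ) < b by linarith) 3,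
          pow_pos (show (0 : ℝ) < b by linarith) 4]
      · refine right b h (s := Q b - b) (by unfold Q; nlinarith)
          (by push_cast; linarith) ?_
        unfold Q
        nlinarith [pow_pos (show (0 : ℝ) < b by linarith) 3,
          pow_pos (show (0 : ℝ) < b by linarith) 4]
    · have hm : m ≠ 0 := fun hm => h (by rw [hm, mul_zero, zero_add])
      push_cast
      rcases ne_cases hm with h | h
      · refine left b h (s := Q b - b) (by unfold Q; nlinarith)
          (by push_cast; linarith) ?_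
        unfold Q
        nlinarith [pow_pos (show (0 : ℝ) < b by linarith) 3,
          pow_pos (show (0 : ℝ) < b by linarith) 4]
      · refine right b h (s := Q b + b) (by unfold Q; positivity)
          (by push_cast; linarith) ?_
        unfold Q
        nlinarith [pow_pos (show (0 : ℝ) < b by linarith) 3,
          pow_pos (show (0 : ℝ) < b by linarith) 4]
  · rw [ka b hb, kb b hb]
    push_cast
    ring

/-- the transition between `b² + 2b` and `q` -/
theorem tr3 (b : ℕ) (hb : 1 ≤ b) :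
    ∃ y : ℝ, Trans (SS b) (kap b) y ((b : ℤ) ^ 2 + 2 * b) (qq b) := by
  have hB : (1 : ℝ) ≤ b := by exact_mod_cast hb
  have hB2 : (1 : ℝ) ≤ (b : ℝ) ^ 2 := by nlinarith
  obtain ⟨t, ht⟩ : ∃ t : ℝ, t * (2 * ((b : ℝ) ^ 2 + 1)) = 2 * (b : ℝ) ^ 4 + 2 * (b : ℝ) ^ 2 + 1 / 2 :=
    ⟨(2 * (b : ℝ) ^ 4 + 2 * (b : ℝ) ^ 2 + 1 / 2) / (2 * ((b : ℝ) ^ 2 + 1)),
      div_mul_cancel₀ _ (by positivity)⟩
  have ht1 : t < (b : ℝ) ^ 2 + 1 := by nlinarith
  have ht0 : (b : ℝ) ^ 2 < t := by nlinarith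
  have e : (((qq b : ℕ) : ℤ) : ℝ) = Q b := by
    rw [← Q_eq]
    push_cast
    rfl
  have e1 : kap b ((b : ℤ) ^ 2 + 2 * b) + ((((b : ℤ) ^ 2 + 2 * b : ℤ) : ℝ) - (Q b - t)) ^ 2 =
      kap b (qq b) + ((((qq b : ℕ) : ℤ) : ℝ) - (Q b - t)) ^ 2 := by
    rw [kq, kb b hb, e]
    push_cast
    unfold Q
    nlinarith
  refine ⟨Q b - t, ⟨sb b hb, sq b, ?_⟩, ?_, ?_, e1⟩
  · rw [kq b, e]
    have e2 : (0 : ℝ) + (Q b - (Q b - t)) ^ 2 = t ^ 2 := by ring
    have e3 : t ^ 2 = (b : ℝ) ^ 4 - 1 / 2 + ((b : ℝ) ^ 2 + 1 - t) ^ 2 := by nlinarith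
    rw [e2]
    refine sec_of b hb _ _ _ _ (fun m _ h => ?_) (fun m _ _ => ?_) (fun m h _ => ?_)
    · have hm : m ≠ 1 := fun hm => h (by rw [hm, mul_one])
      rcases ne_cases hm with h | h
      · refine left0 b (show m ≤ 0 by omega) (s := Q b - t) (by unfold Q; nlinarith)
          (by push_cast; linarith) ?_
        unfold Q
        nlinarith
      · refine right0 b (show 2 ≤ m by omega) (s := Q b + t) (by unfold Q; nlinarith)
          (by push_cast; linarith) ?_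
        unfold Q
        nlinarith
    · rw [e3]
      rcases le_or_gt 1 m with h | h
      · refine right b h (s := (b : ℝ) ^ 2 + t) (by linarith)
          (by push_cast; linarith) ?_
        nlinarith
      · refine left b (show m ≤ 0 by omega) (s := (b : ℝ) ^ 2 + 2 * b + 1 - t) (by linarith)
          (by push_cast; unfold Q; linarith) ?_
        nlinarith
    · rw [e3]
      have hm : m ≠ 0 := fun hm => h (by rw [hm, mul_zero, zero_add])
      rcases ne_cases hm with h | h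
      · refine left b h (s := Q b + ((b : ℝ) ^ 2 + 1 - t)) (by unfold Q; nlinarith)
          (by push_cast; unfold Q; linarith) ?_
        unfold Q
        nlinarith
      · refine right b h (s := (b : ℝ) ^ 2 + 2 * b + t) (by linarith)
          (by push_cast; linarith) ?_
        nlinarith
  · push_cast
    unfold Q
    linarith
  · rw [e]
    linarith

theorem conf : ConfStm := by
  intro b hb
  have hB : (1 : ℝ) ≤ b := by exact_mod_cast hb
  have h3 := pow_pos (show (0 : ℝ) < b by linarith) 3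
  have h4 := pow_pos (show (0 : ℝ) < b by linarith) 4
  refine ⟨⟨sec1 b hb, ?_⟩, ⟨sec2 b hb, ?_⟩, ⟨sec3 b hb, ?_⟩, tr1 b hb, tr2 b hb, tr3 b hb⟩
  · rw [k0, ka b hb]
    nlinarith [pow_le_pow_left₀ (by norm_num : (0 : ℝ) ≤ 1) hB 4]
  · rw [k0, ka b hb]
    nlinarith
  · rw [kq, kb b hb, Q_eq]
    unfold Q
    nlinarith

end Pool.Agent.Y761.BEF
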